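import Mathlib
import Pool.Agent.X23.TTO3

/-!
# `T ⊕ 0` need not be unitarily equivalent to a truncated Toeplitz operator

There is an operator `T` on `ℂ³` (in the proof `T = I + E₁₃`, which is the truncated Toeplitz
operator with `Θ = z³` and `φ = 1 + conj z ^ 2`) such that `T` is unitarily equivalent to a
truncated Toeplitz operator, but `T ⊕ 0` on `ℂ³ ⊕ ℂ` is not.
-/

namespace Pool.Agent.Results.MP_3d2409_an.NotUETTO

open Pool.Agent.X23.TTO

theorem result : ∃ (T : Cn 3 →L[ℂ] Cn 3) (S : Plus (Cn 3) →L[ℂ] Plus (Cn 3)),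
    IsSumZero T S ∧ IsUETTO T ∧ ¬ IsUETTO S :=
  ⟨T, S, isSumZero, pos, neg⟩

end Pool.Agent.Results.MP_3d2409_an.NotUETTO
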